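import Pool.Agent.N929.ON.Stm

/-!
# Project ON, task MANY: good patterns are frequent on the path (helper195)
-/

set_option autoImplicit false

namespace Pool.Agent.N195.ON

open Finset Pool.Agent.N929.ON
open scoped Classical

noncomputable section

/-! ### the pattern -/

/-- the `+` faces of the pattern -/
def plusF (W : ℕ) (x y : ℤ) : Finset (ℤ × ℤ) :=
  if x < W then {(x, y + 1), (x, y + 2), (x, y + 3)}
  else {(x, y + 1), (x - 1, y + 2), (x - 1, y + 3), (x, y + 3)}

/-- the `-` faces of the pattern -/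
def minusF (W : ℕ) (x y : ℤ) : Finset (ℤ × ℤ) :=
  if x < W then {(x + 1, y + 1), (x + 2, y + 1), (x + 2, y + 2), (x + 1, y + 3)}
  else {(x + 1, y + 1), (x + 1, y + 2), (x + 1, y + 3)}

theorem good_iff (W : ℕ) (σ : ℤ × ℤ → Bool) (x y : ℤ) :
    Good W σ x y ↔ (∀ f ∈ plusF W x y, σ f = true) ∧ ∀ f ∈ minusF W x y, σ f = false := by
  unfold Good plusF minusF
  split_ifs with h
  · simp only [mem_insert, mem_singleton, forall_eq_or_imp, forall_eq]
    tauto
  · simp only [mem_insert, mem_singleton, forall_eq_or_imp, forall_eq]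
    tauto

theorem plus_row {W : ℕ} {x y : ℤ} {f : ℤ × ℤ} (h : f ∈ plusF W x y) :
    y + 1 ≤ f.2 ∧ f.2 ≤ y + 3 := by
  unfold plusF at h
  split_ifs at h
  · simp only [mem_insert, mem_singleton] at h
    rcases h with rfl | rfl | rfl <;> constructor <;> simp
  · simp only [mem_insert, mem_singleton] at h
    rcases h with rfl | rfl | rfl | rfl <;> constructor <;> simp

theorem minus_row {W : ℕ} {x y : ℤ} {f : ℤ × ℤ} (h : f ∈ minusF W x y) :
    y + 1 ≤ f.2 ∧ f.2 ≤ y + 3 := by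
  unfold minusF at h
  split_ifs at h
  · simp only [mem_insert, mem_singleton] at h
    rcases h with rfl | rfl | rfl | rfl <;> constructor <;> simp
  · simp only [mem_insert, mem_singleton] at h
    rcases h with rfl | rfl | rfl <;> constructor <;> simp

theorem disj {W : ℕ} {x y : ℤ} {f : ℤ × ℤ} (h : f ∈ plusF W x y) : f ∉ minusF W x y := by
  intro h'
  unfold plusF at h
  unfold minusF at h'
  split_ifs at h h'
  · simp only [mem_insert, mem_singleton] at h h'
    rcases h with rfl | rfl | rfl <;> simp at h'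
  · simp only [mem_insert, mem_singleton] at h h'
    rcases h with rfl | rfl | rfl | rfl <;> simp at h' <;> omega

theorem mem_Dom {W L : ℕ} {f : ℤ × ℤ} :
    f ∈ Dom W L ↔ (1 ≤ f.1 ∧ f.1 ≤ W) ∧ (1 ≤ f.2 ∧ f.2 ≤ L) := by
  unfold Dom
  rw [mem_product, mem_Icc, mem_Icc]

theorem plus_out {W L : ℕ} {a b x y : ℤ} {f : ℤ × ℤ} (_hx0 : 0 ≤ x) (hxW : x ≤ W) (hy0 : 0 ≤ y)
    (hyL : y + 3 ≤ L) (hW : 2 ≤ W) (h : f ∈ plusF W x y) (hf : f ∉ Dom W L) :
    bd L a b f = true := by
  rw [mem_Dom] at hf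
  have hr := plus_row h
  have h1 : f.1 ≤ 0 := by
    unfold plusF at h
    split_ifs at h
    · simp only [mem_insert, mem_singleton] at h
      rcases h with rfl | rfl | rfl <;> simp only at hf hr ⊢ <;> omega
    · simp only [mem_insert, mem_singleton] at h
      rcases h with rfl | rfl | rfl | rfl <;> simp only at hf hr ⊢ <;> omega
  unfold bd
  rw [if_neg (by omega), if_pos (by omega)]
  exact decide_eq_true h1

theorem minus_out {W L : ℕ} {a b x y : ℤ} {f : ℤ × ℤ} (hx0 : 0 ≤ x) (hxW : x ≤ W) (hy0 : 0 ≤ y)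
    (hyL : y + 3 ≤ L) (h : f ∈ minusF W x y) (hf : f ∉ Dom W L) :
    bd L a b f = false := by
  rw [mem_Dom] at hf
  have hr := minus_row h
  have h1 : ¬ f.1 ≤ 0 := by
    unfold minusF at h
    split_ifs at h
    · simp only [mem_insert, mem_singleton] at h
      rcases h with rfl | rfl | rfl | rfl <;> simp only at hf hr ⊢ <;> omega
    · simp only [mem_insert, mem_singleton] at h
      rcases h with rfl | rfl | rfl <;> simp only at hf hr ⊢ <;> omega
  unfold bd
  rw [if_neg (by omega), if_pos (by omega)]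
  exact decide_eq_false h1

theorem card_pat (W : ℕ) (x y : ℤ) : (plusF W x y ∪ minusF W x y).card ≤ 7 := by
  refine (card_union_le _ _).trans ?_
  unfold plusF minusF
  split_ifs
  · have h1 : ({(x, y + 1), (x, y + 2), (x, y + 3)} : Finset (ℤ × ℤ)).card ≤ 3 := card_le_three
    have h2 : ({(x + 1, y + 1), (x + 2, y + 1), (x + 2, y + 2), (x + 1, y + 3)} :
      Finset (ℤ × ℤ)).card ≤ 4 := card_le_four
    omega
  · have h1 : ({(x, y + 1), (x - 1, y + 2), (x - 1, y + 3), (x, y + 3)} :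
      Finset (ℤ × ℤ)).card ≤ 4 := card_le_four
    have h2 : ({(x + 1, y + 1), (x + 1, y + 2), (x + 1, y + 3)} :
      Finset (ℤ × ℤ)).card ≤ 3 := card_le_three
    omega

/-- the set with the pattern -/
def Ph (W L : ℕ) (x y : ℤ) (S : Finset (ℤ × ℤ)) : Finset (ℤ × ℤ) :=
  (S \ minusF W x y) ∪ (plusF W x y ∩ Dom W L)

theorem Ph_sub {W L : ℕ} {x y : ℤ} {S : Finset (ℤ × ℤ)} (hS : S ⊆ Dom W L) :
    Ph W L x y S ⊆ Dom W L := by
  unfold Ph
  refine union_subset (sdiff_subset.trans hS) inter_subset_right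

theorem mem_Ph_of {W L : ℕ} {x y : ℤ} {S : Finset (ℤ × ℤ)} {f : ℤ × ℤ}
    (h : f ∉ plusF W x y ∪ minusF W x y) : f ∈ Ph W L x y S ↔ f ∈ S := by
  rw [mem_union, not_or] at h
  unfold Ph
  rw [mem_union, mem_sdiff, mem_inter]
  tauto

theorem cfg_Ph_of {W L : ℕ} {a b x y : ℤ} {S : Finset (ℤ × ℤ)} {f : ℤ × ℤ}
    (h : f ∉ plusF W x y ∪ minusF W x y) : cfg W L a b (Ph W L x y S) f = cfg W L a b S f := by
  unfold cfg
  split_ifs
  · rw [decide_eq_decide]
    exact mem_Ph_of h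
  · rfl

theorem cfg_Ph_row {W L : ℕ} {a b x y : ℤ} {S : Finset (ℤ × ℤ)} {f : ℤ × ℤ} (h : f.2 ≤ y) :
    cfg W L a b (Ph W L x y S) f = cfg W L a b S f := by
  apply cfg_Ph_of
  rw [mem_union, not_or]
  constructor
  · intro h'
    have := plus_row h'
    omega
  · intro h'
    have := minus_row h'
    omega

theorem good_Ph {W L : ℕ} {a b x y : ℤ} {S : Finset (ℤ × ℤ)} (hx0 : 0 ≤ x) (hxW : x ≤ W)
    (hy0 : 0 ≤ y) (hyL : y + 3 ≤ L) (hW : 2 ≤ W) : Good W (cfg W L a b (Ph W L x y S)) x y := by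
  rw [good_iff]
  constructor
  · intro f hf
    unfold cfg
    split_ifs with hD
    · apply decide_eq_true
      unfold Ph
      rw [mem_union, mem_inter]
      exact Or.inr ⟨hf, hD⟩
    · exact plus_out hx0 hxW hy0 hyL hW hf hD
  · intro f hf
    unfold cfg
    split_ifs with hD
    · apply decide_eq_false
      unfold Ph
      rw [mem_union, mem_sdiff, mem_inter, not_or]
      exact ⟨fun h => h.2 hf, fun h => disj h.1 hf⟩
    · exact minus_out hx0 hxW hy0 hyL hf hD

theorem bdy_cfg (W L : ℕ) (a b : ℤ) (S : Finset (ℤ × ℤ)) : Bdy W L a b (cfg W L a b S) := by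
  intro f hf
  unfold cfg
  rw [if_neg hf]

/-! ### flips -/

theorem flip_cfg {W L : ℕ} {a b : ℤ} {S : Finset (ℤ × ℤ)} {f : ℤ × ℤ} (hf : f ∈ Dom W L) :
    Pool.Agent.N929.ON.flip f (cfg W L a b S) = cfg W L a b (symmDiff S {f}) := by
  funext g
  unfold Pool.Agent.N929.ON.flip
  by_cases hg : g = f
  · subst hg
    rw [Function.update_self]
    unfold cfg
    rw [if_pos hf, if_pos hf]
    by_cases hS : g ∈ S
    · have h1 : g ∉ symmDiff S {g} := by
        rw [mem_symmDiff]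
        simp [hS]
      rw [decide_eq_true hS, decide_eq_false h1]
      rfl
    · have h1 : g ∈ symmDiff S {g} := by
        rw [mem_symmDiff]
        simp [hS]
      rw [decide_eq_false hS, decide_eq_true h1]
      rfl
  · rw [Function.update_of_ne hg]
    unfold cfg
    split_ifs
    · rw [decide_eq_decide, mem_symmDiff, mem_singleton]
      tauto
    · rfl

theorem wt_symm {W L : ℕ} {a b : ℤ} {n x κ : ℝ} (hκ : 0 < κ)
    (h : ∀ σ : ℤ × ℤ → Bool, Bdy W L a b σ →
      ∀ f ∈ Dom W L, κ * wt W L n x σ ≤ wt W L n x (Pool.Agent.N929.ON.flip f σ))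
    (S D : Finset (ℤ × ℤ)) (hD : D ⊆ Dom W L) :
    κ ^ D.card * wt W L n x (cfg W L a b S) ≤ wt W L n x (cfg W L a b (symmDiff S D)) := by
  induction D using Finset.induction_on with
  | empty =>
    rw [card_empty, pow_zero, one_mul]
    have h1 : symmDiff S ∅ = S := symmDiff_bot S
    rw [h1]
  | insert f D hf ih =>
    rw [card_insert_of_notMem hf, pow_succ]
    have hfD : f ∈ Dom W L := hD (mem_insert_self f D)
    have ih' := ih fun g hg => hD (mem_insert_of_mem hg)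
    have h1 := h _ (bdy_cfg W L a b (symmDiff S D)) f hfD
    rw [flip_cfg hfD] at h1
    have h2 : symmDiff (symmDiff S D) {f} = symmDiff S (insert f D) := by
      rw [symmDiff_assoc]
      congr 1
      ext g
      rw [mem_symmDiff, mem_singleton, mem_insert]
      constructor
      · tauto
      · rintro (rfl | h)
        · exact Or.inr ⟨rfl, hf⟩
        · refine Or.inl ⟨h, fun h' => hf (h' ▸ h)⟩
    rw [h2] at h1
    calc κ ^ D.card * κ * wt W L n x (cfg W L a b S)
        = κ * (κ ^ D.card * wt W L n x (cfg W L a b S)) := by ring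
      _ ≤ κ * wt W L n x (cfg W L a b (symmDiff S D)) := mul_le_mul_of_nonneg_left ih' hκ.le
      _ ≤ _ := h1

theorem symm_Ph {W L : ℕ} {x y : ℤ} {S : Finset (ℤ × ℤ)} :
    symmDiff S (Ph W L x y S) ⊆ plusF W x y ∪ minusF W x y := by
  intro f hf
  by_contra h
  rw [mem_symmDiff, mem_Ph_of h] at hf
  tauto

/-! ### sums over fibres -/

theorem map_sum_le {ι : Type} [DecidableEq ι] (P G : Finset ι) (Φ : ι → ι) (v : ι → ℝ) (c : ℝ) (N : ℕ)
    (hv : ∀ T ∈ G, 0 ≤ v T) (hΦ : ∀ S ∈ P, Φ S ∈ G) (hw : ∀ S ∈ P, v S ≤ c * v (Φ S))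
    (hc : 0 ≤ c) (hfib : ∀ T ∈ G, (P.filter (fun S => Φ S = T)).card ≤ N) :
    ∑ S ∈ P, v S ≤ c * N * ∑ T ∈ G, v T := by
  calc ∑ S ∈ P, v S ≤ ∑ S ∈ P, c * v (Φ S) := sum_le_sum hw
    _ = ∑ T ∈ G, ∑ S ∈ P with Φ S = T, c * v (Φ S) :=
        (sum_fiberwise_of_maps_to hΦ _).symm
    _ ≤ ∑ T ∈ G, c * N * v T := by
        refine sum_le_sum fun T hT => ?_
        have h1 : ∑ S ∈ P with Φ S = T, c * v (Φ S) = (P.filter fun S => Φ S = T).card * (c * v T) := by
          rw [← nsmul_eq_mul, ← sum_const]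
          refine sum_congr rfl fun S hS => ?_
          rw [(mem_filter.1 hS).2]
        rw [h1]
        have h2 : ((P.filter fun S => Φ S = T).card : ℝ) ≤ N := by exact_mod_cast hfib T hT
        have h3 : 0 ≤ c * v T := mul_nonneg hc (hv T hT)
        calc _ ≤ (N : ℝ) * (c * v T) := mul_le_mul_of_nonneg_right h2 h3
          _ = _ := by ring
    _ = _ := by rw [mul_sum]

/-! ### the rows -/

/-- the path finds a good pattern above the row `3 j` -/
def Gd (W L : ℕ) (a b : ℤ) (j : ℕ) (S : Finset (ℤ × ℤ)) : Prop :=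
  ∃ i x, Hit (cfg W L a b S) a (3 * j : ℕ) i x ∧ Good W (cfg W L a b S) x (3 * j : ℕ)

/-- the rows below `j` -/
def Jj (W L : ℕ) (a b : ℤ) (j : ℕ) (S : Finset (ℤ × ℤ)) : Finset ℕ :=
  (range j).filter fun j' => Gd W L a b j' S

theorem card_Jj_succ (W L : ℕ) (a b : ℤ) (j : ℕ) (S : Finset (ℤ × ℤ)) :
    (Jj W L a b (j + 1) S).card = (Jj W L a b j S).card + if Gd W L a b j S then 1 else 0 := by
  unfold Jj
  rw [range_add_one, filter_insert]
  split_ifs with h
  · rw [card_insert_of_notMem]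
    simp
  · rw [add_zero]

/-- the rows below `j` see only the faces up to the row `3 j` -/
theorem Jj_congr (hhit : S_HIT) {W L : ℕ} {a b : ℤ} {j : ℕ} {S T : Finset (ℤ × ℤ)}
    (h : ∀ f : ℤ × ℤ, f.2 ≤ (3 * j : ℕ) → cfg W L a b S f = cfg W L a b T f) :
    Jj W L a b j S = Jj W L a b j T := by
  have key : ∀ S T : Finset (ℤ × ℤ),
      (∀ f : ℤ × ℤ, f.2 ≤ (3 * j : ℕ) → cfg W L a b S f = cfg W L a b T f) →
      ∀ j' < j, Gd W L a b j' S → Gd W L a b j' T := by
    rintro S T h j' hj' ⟨i, x, h1, h2⟩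
    have h3 : ((3 * j' : ℕ) : ℤ) + 3 ≤ ((3 * j : ℕ) : ℤ) := by
      push_cast
      omega
    refine ⟨i, x, (hhit.2.1 _ _ a _ i x (by positivity) h1 fun f hf =>
      (h f (by omega)).symm).1, ?_⟩
    rw [good_iff] at h2 ⊢
    constructor
    · intro f hf
      have := plus_row hf
      rw [← h f (by omega)]
      exact h2.1 f hf
    · intro f hf
      have := minus_row hf
      rw [← h f (by omega)]
      exact h2.2 f hf
  unfold Jj
  ext j'
  rw [mem_filter, mem_filter, mem_range]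
  constructor
  · rintro ⟨h1, h2⟩
    exact ⟨h1, key S T h j' h1 h2⟩
  · rintro ⟨h1, h2⟩
    exact ⟨h1, key T S (fun f hf => (h f hf).symm) j' h1 h2⟩

/-- **one step** -/
theorem one_step (hhit : S_HIT) {n x κ : ℝ} (hκ : 0 < κ) (hκ1 : κ ≤ 1) {W L : ℕ} {a b : ℤ}
    (hPar : Par W L a b)
    (hwt : ∀ σ : ℤ × ℤ → Bool, Bdy W L a b σ → 0 < wt W L n x σ ∧
      ∀ f ∈ Dom W L, κ * wt W L n x σ ≤ wt W L n x (Pool.Agent.N929.ON.flip f σ)) {j : ℕ} (hj : 3 * j + 3 ≤ L) :
    ∑ S ∈ (Dom W L).powerset, wt W L n x (cfg W L a b S) * (1 / 2) ^ (Jj W L a b (j + 1) S).card ≤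
      (1 - κ ^ 7 / 256) *
      ∑ S ∈ (Dom W L).powerset, wt W L n x (cfg W L a b S) * (1 / 2) ^ (Jj W L a b j S).card := by
  have hW2 : 2 ≤ W := by
    obtain ⟨-, h1, h2, -, -⟩ := hPar
    omega
  set P := (Dom W L).powerset with hP
  set G := P.filter (fun S => Gd W L a b j S) with hG
  let v : Finset (ℤ × ℤ) → ℝ := fun S =>
    wt W L n x (cfg W L a b S) * (1 / 2) ^ (Jj W L a b j S).card
  have hv0 : ∀ S, 0 ≤ v S := fun S =>
    mul_nonneg (hwt _ (bdy_cfg W L a b S)).1.le (by positivity)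
  have hhits : ∀ S : Finset (ℤ × ℤ), ∃ z : ℤ, 0 ≤ z ∧ z ≤ W ∧
      ∃ i, Hit (cfg W L a b S) a (3 * j : ℕ) i z := by
    intro S
    obtain ⟨i, z, h1, h2, h3⟩ := hhit.1 W L a b _ hPar (bdy_cfg W L a b S) ((3 * j : ℕ) : ℤ)
      (by positivity) (by push_cast; omega)
    exact ⟨(z : ℤ), by positivity, by exact_mod_cast h2, i, h3⟩
  choose z hz0 hzW hzi using hhits
  let Φ : Finset (ℤ × ℤ) → Finset (ℤ × ℤ) := fun S => Ph W L (z S) (3 * j : ℕ) S
  -- the Hit of the image
  have hΦhit : ∀ S, ∃ i, Hit (cfg W L a b (Φ S)) a (3 * j : ℕ) i (z S) := by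
    intro S
    obtain ⟨i, hi⟩ := hzi S
    exact ⟨i, (hhit.2.1 _ _ a _ i (z S) (by positivity) hi fun f hf => cfg_Ph_row hf).1⟩
  have hΦgood : ∀ S, Good W (cfg W L a b (Φ S)) (z S) (3 * j : ℕ) := fun S =>
    good_Ph (hz0 S) (hzW S) (by positivity) (by push_cast; omega) hW2
  have hΦG : ∀ S ∈ P, Φ S ∈ G := by
    intro S hS
    rw [hG, mem_filter, hP, mem_powerset]
    obtain ⟨i, hi⟩ := hΦhit S
    exact ⟨Ph_sub (mem_powerset.1 hS), i, z S, hi, hΦgood S⟩
  have hzΦ : ∀ S, z (Φ S) = z S := by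
    intro S
    obtain ⟨i, hi⟩ := hΦhit S
    obtain ⟨i', hi'⟩ := hzi (Φ S)
    exact (hhit.2.2 _ _ _ _ _ _ _ hi' hi).2
  have hΦJ : ∀ S, Jj W L a b j (Φ S) = Jj W L a b j S := fun S =>
    Jj_congr hhit fun f hf => cfg_Ph_row hf
  have hΦw : ∀ S ∈ P, v S ≤ (κ ^ 7)⁻¹ * v (Φ S) := by
    intro S hS
    have hD : symmDiff S (Φ S) ⊆ Dom W L := by
      intro f hf
      rw [mem_symmDiff] at hf
      rcases hf with hf | hf
      · exact mem_powerset.1 hS hf.1
      · exact Ph_sub (mem_powerset.1 hS) hf.1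
    have h1 := wt_symm (a := a) (b := b) hκ (fun σ hσ => (hwt σ hσ).2) S (symmDiff S (Φ S)) hD
    rw [symmDiff_symmDiff_cancel_left] at h1
    have h2 : (symmDiff S (Φ S)).card ≤ 7 := (card_le_card symm_Ph).trans (card_pat W _ _)
    have h3 : κ ^ 7 ≤ κ ^ (symmDiff S (Φ S)).card := pow_le_pow_of_le_one hκ.le hκ1 h2
    have h4 : 0 < wt W L n x (cfg W L a b S) := (hwt _ (bdy_cfg W L a b S)).1
    have h5 : κ ^ 7 * wt W L n x (cfg W L a b S) ≤ wt W L n x (cfg W L a b (Φ S)) :=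
      (mul_le_mul_of_nonneg_right h3 h4.le).trans h1
    have h6 : 0 < κ ^ 7 := by positivity
    show wt W L n x (cfg W L a b S) * (1 / 2) ^ (Jj W L a b j S).card ≤
      (κ ^ 7)⁻¹ * (wt W L n x (cfg W L a b (Φ S)) * (1 / 2) ^ (Jj W L a b j (Φ S)).card)
    rw [hΦJ, ← mul_assoc]
    refine mul_le_mul_of_nonneg_right ?_ (by positivity)
    rw [inv_mul_eq_div, le_div_iff₀ h6]
    linarith
  have hfib : ∀ T ∈ G, (P.filter (fun S => Φ S = T)).card ≤ 128 := by
    intro T _
    set pat := plusF W (z T) (3 * j : ℕ) ∪ minusF W (z T) (3 * j : ℕ) with hpat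
    have h1 : (P.filter (fun S => Φ S = T)).card ≤ pat.powerset.card := by
      refine card_le_card_of_injOn (fun S => S ∩ pat) ?_ ?_
      · intro S _
        exact mem_coe.2 (mem_powerset.2 inter_subset_right)
      · intro S hS S' hS' hSS
        have hS1 := (mem_filter.1 (mem_coe.1 hS)).2
        have hS1' := (mem_filter.1 (mem_coe.1 hS')).2
        have e1 : z T = z S := by rw [← hS1, hzΦ]
        have e1' : z T = z S' := by rw [← hS1', hzΦ]
        ext f
        by_cases hf : f ∈ pat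
        · have h2 := congrArg (fun A : Finset (ℤ × ℤ) => f ∈ A) hSS
          simp only [mem_inter, hf, and_true] at h2
          exact Eq.to_iff h2
        · have h2 : f ∈ Φ S ↔ f ∈ S := by
            apply mem_Ph_of
            rw [← e1]
            exact hf
          have h2' : f ∈ Φ S' ↔ f ∈ S' := by
            apply mem_Ph_of
            rw [← e1']
            exact hf
          rw [← h2, ← h2', hS1, hS1']
    refine h1.trans ?_
    rw [card_powerset]
    calc 2 ^ pat.card ≤ 2 ^ 7 := Nat.pow_le_pow_right (by norm_num) (card_pat W _ _)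
      _ = 128 := by norm_num
  have hmain := map_sum_le P G Φ v ((κ ^ 7)⁻¹) 128 (fun T _ => hv0 T) hΦG hΦw (by positivity) hfib
  have hκ7 : 0 < κ ^ 7 := by positivity
  -- the good sets carry a part of the sum
  have hG1 : κ ^ 7 / 128 * ∑ S ∈ P, v S ≤ ∑ T ∈ G, v T := by
    have h1 : ∑ S ∈ P, v S ≤ (128 / κ ^ 7) * ∑ T ∈ G, v T := by
      calc _ ≤ _ := hmain
        _ = _ := by push_cast; ring
    calc κ ^ 7 / 128 * ∑ S ∈ P, v S ≤ κ ^ 7 / 128 * ((128 / κ ^ 7) * ∑ T ∈ G, v T) :=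
          mul_le_mul_of_nonneg_left h1 (by positivity)
      _ = ∑ T ∈ G, v T := by
          field_simp
  have hsplit : ∑ S ∈ P, wt W L n x (cfg W L a b S) * (1 / 2) ^ (Jj W L a b (j + 1) S).card =
      ∑ S ∈ P, v S - 1 / 2 * ∑ T ∈ G, v T := by
    rw [hG, sum_filter, mul_sum, ← sum_sub_distrib]
    refine sum_congr rfl fun S _ => ?_
    rw [card_Jj_succ]
    show _ = wt W L n x (cfg W L a b S) * (1 / 2) ^ (Jj W L a b j S).card -
      1 / 2 * (if Gd W L a b j S then
        wt W L n x (cfg W L a b S) * (1 / 2) ^ (Jj W L a b j S).card else 0)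
    split_ifs
    · rw [pow_succ]
      ring
    · rw [add_zero]
      ring
  rw [hsplit]
  show ∑ S ∈ P, v S - 1 / 2 * ∑ T ∈ G, v T ≤ (1 - κ ^ 7 / 256) * ∑ S ∈ P, v S
  linarith

/-- **MANY** -/
theorem many (hhit : S_HIT) (hfe : S_FE) : S_MANY := by
  intro n x hn hx
  obtain ⟨κ₀, hκ₀, hfe'⟩ := hfe n x hn hx
  set κ : ℝ := min κ₀ 1 with hκdef
  have hκ : 0 < κ := by positivity
  have hκ1 : κ ≤ 1 := min_le_right _ _
  have hκκ : κ ≤ κ₀ := min_le_left _ _
  set p : ℝ := κ ^ 7 / 128 with hp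
  have hp0 : 0 < p := by positivity
  have hp1 : p ≤ 1 := by
    rw [hp, div_le_one (by norm_num)]
    exact (pow_le_one₀ hκ.le hκ1).trans (by norm_num)
  set C : ℝ := 12 / p with hC
  have hC0 : 0 < C := by positivity
  have hC12 : 12 ≤ C := by
    rw [hC, le_div_iff₀ hp0]
    linarith
  refine ⟨C, by linarith, ?_⟩
  intro W L a b hPar
  have hwt : ∀ σ : ℤ × ℤ → Bool, Bdy W L a b σ → 0 < wt W L n x σ ∧
      ∀ f ∈ Dom W L, κ * wt W L n x σ ≤ wt W L n x (Pool.Agent.N929.ON.flip f σ) := by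
    intro σ hσ
    obtain ⟨-, h1, h2⟩ := hfe' W L a b hPar σ hσ
    exact ⟨h1, fun f hf => (mul_le_mul_of_nonneg_right hκκ h1.le).trans (h2 f hf)⟩
  set Z : ℝ := ∑ S ∈ (Dom W L).powerset, wt W L n x (cfg W L a b S) with hZ
  have hZ0 : 0 ≤ Z := sum_nonneg fun S _ => (hwt _ (bdy_cfg W L a b S)).1.le
  have hq0 : 0 ≤ 1 - κ ^ 7 / 256 := by
    have := pow_le_one₀ (n := 7) hκ.le hκ1
    linarith
  have hind : ∀ j : ℕ, 3 * j ≤ L →
      ∑ S ∈ (Dom W L).powerset, wt W L n x (cfg W L a b S) * (1 / 2) ^ (Jj W L a b j S).card ≤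
      (1 - κ ^ 7 / 256) ^ j * Z := by
    intro j
    induction j with
    | zero =>
      intro _
      rw [pow_zero, one_mul, hZ]
      refine sum_le_sum fun S _ => ?_
      have : (Jj W L a b 0 S).card = 0 := by simp [Jj]
      rw [this, pow_zero, mul_one]
    | succ j ih =>
      intro hj
      refine (one_step hhit hκ hκ1 hPar hwt (by omega)).trans ?_
      rw [pow_succ (1 - κ ^ 7 / 256) j, mul_comm ((1 - κ ^ 7 / 256) ^ j), mul_assoc]
      exact mul_le_mul_of_nonneg_left (ih (by omega)) hq0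
  have hm := hind (L / 3) (by omega)
  -- Markov
  have hJJ : ∀ S, JJ W L a b S = Jj W L a b (L / 3) S := fun S => rfl
  have hlog2 : 0 < Real.log 2 := Real.log_pos (by norm_num)
  have hlog21 : Real.log 2 ≤ 1 := by
    have := Real.log_two_lt_d9
    norm_num at this ⊢
    linarith
  have hmark : ∑ S ∈ (Dom W L).powerset.filter (fun S => C * ((JJ W L a b S).card : ℝ) < L),
      wt W L n x (cfg W L a b S) ≤ Real.exp (Real.log 2 * (L / C)) *
      ∑ S ∈ (Dom W L).powerset,
        wt W L n x (cfg W L a b S) * (1 / 2) ^ (Jj W L a b (L / 3) S).card := by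
    rw [sum_filter, mul_sum]
    refine sum_le_sum fun S _ => ?_
    have hw := (hwt _ (bdy_cfg W L a b S)).1
    split_ifs with h
    · rw [hJJ] at h
      set k := (Jj W L a b (L / 3) S).card with hk
      have h1 : (k : ℝ) ≤ L / C := by
        rw [le_div_iff₀ hC0]
        linarith
      have h2 : 1 ≤ Real.exp (Real.log 2 * (L / C)) * (1 / 2) ^ k := by
        have h3 : ((1 : ℝ) / 2) ^ k = Real.exp (-(Real.log 2 * k)) := by
          rw [Real.exp_neg, mul_comm, Real.exp_nat_mul, Real.exp_log (by norm_num)]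
          rw [one_div, inv_pow]
        rw [h3, ← Real.exp_add]
        apply Real.one_le_exp
        nlinarith
      calc wt W L n x (cfg W L a b S) = 1 * wt W L n x (cfg W L a b S) := (one_mul _).symm
        _ ≤ (Real.exp (Real.log 2 * (L / C)) * (1 / 2) ^ k) * wt W L n x (cfg W L a b S) :=
            mul_le_mul_of_nonneg_right h2 hw.le
        _ = _ := by ring
    · positivity
  refine hmark.trans ?_
  have h1 : (1 - κ ^ 7 / 256) ^ (L / 3) ≤ Real.exp (-(p / 2) * (L / 3 : ℕ)) := by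
    have h2 : 1 - κ ^ 7 / 256 ≤ Real.exp (-(p / 2)) := by
      have := Real.add_one_le_exp (-(p / 2))
      have h3 : κ ^ 7 / 256 = p / 2 := by rw [hp]; ring
      linarith
    calc (1 - κ ^ 7 / 256) ^ (L / 3) ≤ Real.exp (-(p / 2)) ^ (L / 3) := pow_le_pow_left₀ hq0 h2 _
      _ = _ := by
        rw [← Real.exp_nat_mul]
        congr 1
        ring
  have h4 : ((L : ℝ) / 3 - 1) ≤ ((L / 3 : ℕ) : ℝ) := by
    have h5 : L ≤ 3 * (L / 3) + 2 := by omega
    have h6 : (L : ℝ) ≤ 3 * ((L / 3 : ℕ) : ℝ) + 2 := by exact_mod_cast h5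
    linarith
  have h7 : Real.exp (-(p / 2) * (L / 3 : ℕ)) ≤ Real.exp (p / 2 - p / 6 * L) := by
    apply Real.exp_le_exp.2
    nlinarith
  have hL0 : (0 : ℝ) ≤ L := Nat.cast_nonneg L
  calc Real.exp (Real.log 2 * (L / C)) *
      ∑ S ∈ (Dom W L).powerset,
        wt W L n x (cfg W L a b S) * (1 / 2) ^ (Jj W L a b (L / 3) S).card
      ≤ Real.exp (Real.log 2 * (L / C)) * (Real.exp (p / 2 - p / 6 * L) * Z) := by
        refine mul_le_mul_of_nonneg_left (hm.trans ?_) (Real.exp_pos _).le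
        exact mul_le_mul_of_nonneg_right (h1.trans h7) hZ0
    _ = Real.exp (Real.log 2 * (L / C) + (p / 2 - p / 6 * L)) * Z := by
        rw [Real.exp_add, mul_assoc]
    _ ≤ (C * Real.exp (-((L : ℝ) / C))) * Z := by
        refine mul_le_mul_of_nonneg_right ?_ hZ0
        have h8 : p / 6 * L = 2 * (L / C) := by
          rw [hC]
          field_simp
          ring
        have h9 : Real.log 2 * (L / C) + (p / 2 - p / 6 * L) ≤ 1 / 2 + -((L : ℝ) / C) := by
          rw [h8]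
          have h10 : 0 ≤ (L : ℝ) / C := by positivity
          nlinarith
        have h11 : Real.exp (1 / 2) ≤ C := by
          have h12 : Real.exp (1 / 2) ≤ Real.exp 1 := Real.exp_le_exp.2 (by norm_num)
          have := Real.exp_one_lt_d9
          linarith
        calc Real.exp (Real.log 2 * (L / C) + (p / 2 - p / 6 * L))
            ≤ Real.exp (1 / 2 + -((L : ℝ) / C)) := Real.exp_le_exp.2 h9
          _ = Real.exp (1 / 2) * Real.exp (-((L : ℝ) / C)) := Real.exp_add _ _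
          _ ≤ C * Real.exp (-((L : ℝ) / C)) := mul_le_mul_of_nonneg_right h11 (Real.exp_pos _).le

end

end Pool.Agent.N195.ON
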